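import Pool.Agent.helper88.RQ2.Spec

/-! Row RQ:AR5 (arithmetic, odd dimension). -/

set_option autoImplicit false

open Set Matroid RadonMin

namespace RadonQ2

lemma AR5_key (k q t s : ℕ) (hk : 1 ≤ k) (ht : t ≤ k) (hs : s = q * k + t) :
    (radonMin (2 * k - 1) s : ℤ) = TT q (s : ℤ) (2 * k) := by
  have hodd : (2 * k - 1) % 2 = 1 := by omega
  have hdk : (2 * k - 1 + 1) / 2 = k := by omega
  unfold radonMin
  rw [if_pos hodd, hdk, hs, bal_eq k q t hk ht]
  unfold TT
  have h4 := choose_two_mul q
  have h5 := choose_three_succ q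
  have h7 : (q.choose 2 : ℤ) * q = 2 * (q + 1).choose 3 + q.choose 3 := by linarith
  push_cast
  linear_combination (-(k : ℤ)) * h7

theorem AR5_proof : AR5_stmt := by
  intro k s hk hs
  refine ⟨?_, ?_, ?_⟩
  · have hst := Nat.div_add_mod s k
    have hmod := Nat.mod_lt s (show k > 0 by omega)
    exact AR5_key k (s / k) (s % k) s hk hmod.le (by rw [Nat.mul_comm]; exact hst.symm)
  · intro h3
    exact AR5_key k 2 (s - 2 * k) s hk (by omega) (by omega)
  · intro h3 h4
    exact AR5_key k 3 (s - 3 * k) s hk (by omega) (by omega)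

end RadonQ2
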